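import Pool.Agent.N290.RL.Stm

/-!
# RL, RAY: slowly varying weights along rays
-/

set_option autoImplicit false

namespace Pool.Agent.N99.RL

open Pool.Agent.N290.RJ Pool.Agent.N290.RK Pool.Agent.N290.RL Set

variable {d : ℕ}

theorem one_sub_pos {z : E d} (hz : z ∈ B d) {t : ℝ} (_h0 : 0 ≤ t) (h1 : t ≤ 1) :
    0 < 1 - t * nm z := by
  have h2 := mem_B_nm.1 hz
  have h3 := nm_nonneg z
  nlinarith

theorem hasDerivAt_ray {a : E d → ℝ} (ha : AW a) {z : E d} {t : ℝ} (ht : t • z ∈ B d) :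
    HasDerivAt (fun s : ℝ => a (s • z)) (fderiv ℝ a (t • z) z) t := by
  have h1 : DifferentiableAt ℝ a (t • z) :=
    (ha.a1.differentiableOn (by norm_num)).differentiableAt (B_open.mem_nhds ht)
  have h2 : HasDerivAt (fun s : ℝ => s • z) ((1 : ℝ) • z) t := (hasDerivAt_id t).smul_const z
  have h3 := h1.hasFDerivAt.comp_hasDerivAt t h2
  rw [one_smul] at h3
  exact h3

theorem deriv_log {a : E d → ℝ} (ha : AW a) {z : E d} (hz : z ∈ B d) {t : ℝ} (h0 : 0 ≤ t)
    (h1 : t ≤ 1) (c : ℝ) :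
    HasDerivAt (fun s : ℝ => Real.log (a (s • z)) + c * Real.log (1 - s * nm z))
      (fderiv ℝ a (t • z) z / a (t • z) + c * (-nm z / (1 - t * nm z))) t := by
  have ht := smul_mem_B hz h0 h1
  have h2 := (hasDerivAt_ray ha ht).log (ha.a2 _ ht).1.ne'
  have h3 : HasDerivAt (fun s : ℝ => 1 - s * nm z) (-nm z) t := by
    have := ((hasDerivAt_id t).mul_const (nm z)).const_sub 1
    rw [one_mul] at this
    exact this
  exact h2.add ((h3.log (one_sub_pos hz h0 h1).ne').const_mul c)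

theorem abs_deriv (h2 : S2 d) {a : E d → ℝ} (ha : AW a) {z : E d} (hz : z ∈ B d) {t : ℝ}
    (h0 : 0 ≤ t) (h1 : t ≤ 1) :
    |fderiv ℝ a (t • z) z / a (t • z)| ≤ 1 / 256 * (nm z / (1 - t * nm z)) := by
  have ht := smul_mem_B hz h0 h1
  have hp := (ha.a2 _ ht).1
  rw [abs_div, abs_of_pos hp, div_le_iff₀ hp]
  have h3 := ha.a3 _ ht z
  have h4 := (h2 z hz t h0 h1).2
  calc |fderiv ℝ a (t • z) z| ≤ 1 / 256 * (a (t • z) * len (t • z) z) := h3
    _ ≤ 1 / 256 * (a (t • z) * (nm z / (1 - t * nm z))) := by gcongr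
    _ = _ := by ring

/-- **RAY** -/
theorem RAY_of (d : ℕ) (h2 : S2 d) : RAY d := by
  intro a ha z hz t t' h0 htt h1
  have hpos : ∀ s : ℝ, 0 ≤ s → s ≤ 1 → 0 < a (s • z) :=
    fun s hs hs' => (ha.a2 (s • z) (smul_mem_B hz hs hs')).1
  have hder : ∀ c : ℝ, ∀ s ∈ Icc (0 : ℝ) 1, HasDerivAt
      (fun s : ℝ => Real.log (a (s • z)) + c * Real.log (1 - s * nm z))
      (fderiv ℝ a (s • z) z / a (s • z) + c * (-nm z / (1 - s * nm z))) s :=
    fun c s hs => deriv_log ha hz hs.1 hs.2 c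
  have hanti : AntitoneOn (fun s : ℝ => Real.log (a (s • z)) + 1 / 256 * Real.log (1 - s * nm z))
      (Icc 0 1) := by
    refine antitoneOn_of_deriv_nonpos (convex_Icc 0 1)
      (fun s hs => (hder _ s hs).continuousAt.continuousWithinAt)
      (fun s hs => (hder _ s (interior_subset hs)).differentiableAt.differentiableWithinAt) ?_
    intro s hs
    have hs' := interior_subset hs
    rw [(hder _ s hs').deriv]
    have h3 := (abs_le.1 (abs_deriv h2 ha hz hs'.1 hs'.2)).2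
    have h4 : -nm z / (1 - s * nm z) = -(nm z / (1 - s * nm z)) := neg_div _ _
    rw [h4]
    linarith
  have hmono : MonotoneOn
      (fun s : ℝ => Real.log (a (s • z)) + (-(1 / 256)) * Real.log (1 - s * nm z)) (Icc 0 1) := by
    refine monotoneOn_of_deriv_nonneg (convex_Icc 0 1)
      (fun s hs => (hder _ s hs).continuousAt.continuousWithinAt)
      (fun s hs => (hder _ s (interior_subset hs)).differentiableAt.differentiableWithinAt) ?_
    intro s hs
    have hs' := interior_subset hs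
    rw [(hder _ s hs').deriv]
    have h3 := (abs_le.1 (abs_deriv h2 ha hz hs'.1 hs'.2)).1
    have h4 : -nm z / (1 - s * nm z) = -(nm z / (1 - s * nm z)) := neg_div _ _
    rw [h4]
    linarith
  have m1 : t ∈ Icc (0 : ℝ) 1 := ⟨h0, htt.trans h1⟩
  have m2 : t' ∈ Icc (0 : ℝ) 1 := ⟨h0.trans htt, h1⟩
  have e1 := hanti m1 m2 htt
  have e2 := hmono m1 m2 htt
  simp only at e1 e2
  have q1 := one_sub_pos hz m1.1 m1.2
  have q2 := one_sub_pos hz m2.1 m2.2
  have hq : 0 < (1 - t * nm z) / (1 - t' * nm z) := div_pos q1 q2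
  have hlog : Real.log ((1 - t * nm z) / (1 - t' * nm z)) =
      Real.log (1 - t * nm z) - Real.log (1 - t' * nm z) := Real.log_div q1.ne' q2.ne'
  have key : ∀ x y : ℝ, 0 < x → 0 < y → Real.log x ≤ Real.log y +
      1 / 256 * (Real.log (1 - t * nm z) - Real.log (1 - t' * nm z)) →
      x ≤ y * ((1 - t * nm z) / (1 - t' * nm z)) ^ (1 / 256 : ℝ) := by
    intro x y hx hy h
    rw [← Real.log_le_log_iff hx (mul_pos hy (Real.rpow_pos_of_pos hq _)),
      Real.log_mul hy.ne' (Real.rpow_pos_of_pos hq _).ne', Real.log_rpow hq, hlog]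
    exact h
  exact ⟨key _ _ (hpos _ m1.1 m1.2) (hpos _ m2.1 m2.2) (by linarith),
    key _ _ (hpos _ m2.1 m2.2) (hpos _ m1.1 m1.2) (by linarith)⟩

end Pool.Agent.N99.RL
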